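import Pool.Agent.R769.TU.Main

set_option autoImplicit false

/-!
# Correlation for `t`-up-sets of permutations

For every `α > 0` there is `β > 0` such that any two `⌈α n⌉`-up-sets of `S_n` with at least `α n!`
elements meet in at least `β n!` elements, for every `n`.

Outline of the proof (`X = a⁻¹` maps values to positions). Cut the positions into `m ≈ 4/α` windows
of length about `n/m`; positions in the same or in adjacent windows are at distance `≤ α n`.
(1) Averaging over the permutations of the positions preserving the windows, Harris' inequality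
holds, so `μ(A ∩ B) ≥ E[ab]`, where `a`, `b` are the averages of the indicator functions.
(2) Swapping an inverted pair of values in adjacent windows increases `a` and `b`. So if `m`
positions, one from each window, form a group, then both `a` and `b`, as functions of the
permutation in `S_m` applied to this group, are maximal at the same point.
(3) For two functions `F₁, F₂ ≥ 0` on a finite set with `N` elements with a common maximum point
`avg (F₁F₂)^κ ≥ (avg F₁ · avg F₂)^κ` for some `κ = κ(N)`, and this tensorizes over the `n/m` groups.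
Hence `μ(A ∩ B) ≥ (E[âb̂])^κ`, where `â`, `b̂` are the averages of `a`, `b` over `S_m^{n/m}`.
(4) `Var â = O(m³/n)` by a Poincaré inequality on `S_n` and Bessel's inequality.
-/

open Finset Equiv

namespace Pool.Agent.Results.MP_aa7196_co.CorrelationForTUpSets

/-- A permutation `a` of `Fin n` is the sequence `(a 0, …, a (n-1))`; `pos a i` is the index `k`
with `a k = i`. -/
def pos {n : ℕ} (a : Perm (Fin n)) (i : Fin n) : Fin n := a.symm i

/-- `A` is a `t`-up-set: whenever `a ∈ A` and `{i, j}` is an inversion of `a`, that is `i < j` and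
`pos a i > pos a j`, with `|pos a i - pos a j| ≤ t`, the permutation obtained from `a` by exchanging
the entries `i` and `j` lies in `A`. -/
def IsUpSet {n : ℕ} (t : ℕ) (A : Finset (Perm (Fin n))) : Prop :=
  ∀ a ∈ A, ∀ i j : Fin n, i < j → pos a j < pos a i →
    |((pos a i : ℕ) : ℤ) - ((pos a j : ℕ) : ℤ)| ≤ t → swap i j * a ∈ A

/-- Correlation for `⌈α n⌉`-up-sets: the full affirmative answer. -/
theorem result : ∀ α : ℝ, 0 < α → ∃ β : ℝ, 0 < β ∧ ∀ n : ℕ, ∀ A B : Finset (Perm (Fin n)),
    IsUpSet ⌈α * n⌉₊ A → IsUpSet ⌈α * n⌉₊ B →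
    α * (n.factorial : ℝ) ≤ (A.card : ℝ) → α * (n.factorial : ℝ) ≤ (B.card : ℝ) →
    β * (n.factorial : ℝ) ≤ ((A ∩ B).card : ℝ) := by
  intro α hα
  obtain ⟨β, hβ, h⟩ := R769.TU.main α hα
  have key : ∀ (n t : ℕ) (A : Finset (Perm (Fin n))), IsUpSet t A → R769.TU.UpSet t A := by
    intro n t A hA a ha i j hij hpos ht
    refine hA a ha i j hij hpos ?_
    have h1 : (a.symm j : ℕ) < (a.symm i : ℕ) := hpos
    rw [abs_of_nonneg] <;> simp only [pos] <;> omega
  exact ⟨β, hβ, fun n A B hA hB hcA hcB => h n A B (key n _ A hA) (key n _ B hB) hcA hcB⟩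

end Pool.Agent.Results.MP_aa7196_co.CorrelationForTUpSets
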